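import Pool.Agent.D0H69.JT.StmA

/-! # Few sets are degenerate

Adapted from the files `D0H69/L3K/Bad.lean` of helper69 and `D0H10/L9D/Bad.lean` of helper10. -/

set_option autoImplicit false
set_option linter.unusedVariables false

open scoped Classical

namespace Pool.Agent.D0H98.JT

open Finset Filter
open Pool.Agent.Y692.QS (Ei)
open Pool.Agent.Y715.T.Rec (cs)
open Pool.Agent.Y715.T.RecG (Pq)
open Pool.Agent.Y699.E
open Pool.Agent.Y703.CX (eL zz)
open Pool.Agent.Y703.XK (sm la bl)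
open Pool.Agent.R419.KF (SG)
open Pool.Agent.Y433.XK (pN pN_pos)
open Pool.Agent.R419.KF.Few (fiber_le)
open Pool.Agent.N883.FF (nq)
open Pool.Agent.D0H43.L3 (yq)
open Pool.Agent.D0H69.L3K (Tau)
open Pool.Agent.D0H10.L9D (NdN ta tau_ta)
open Pool.Agent.D0H69.JT

lemma lg_mul_le {m n : ℕ} (hm : 1 ≤ m) (hn : 1 ≤ n) : lg (m * n) ≤ 2 * lg m * lg n := by
  have h1 : Nat.log 2 (m * n) ≤ Nat.log 2 m + Nat.log 2 n + 1 := by
    apply Nat.le_of_lt_succ
    have a := Nat.lt_pow_succ_log_self one_lt_two m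
    have b := Nat.lt_pow_succ_log_self one_lt_two n
    have c : m * n < 2 ^ (Nat.log 2 m + Nat.log 2 n + 1).succ := by
      calc m * n < 2 ^ (Nat.log 2 m).succ * 2 ^ (Nat.log 2 n).succ := Nat.mul_lt_mul'' a b
        _ = 2 ^ (Nat.log 2 m + Nat.log 2 n + 1).succ := by
          rw [← pow_add]
          congr 1
          simp only [Nat.succ_eq_add_one]
          omega
    exact Nat.log_lt_of_lt_pow (Nat.mul_pos hm hn).ne' c
  have h2 : lg (m * n) ≤ lg m + lg n := by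
    unfold lg
    have : (Nat.log 2 (m * n) : ℝ) ≤ Nat.log 2 m + Nat.log 2 n + 1 := by exact_mod_cast h1
    linarith
  have h3 := one_le_lg m
  have h4 := one_le_lg n
  have h5 : lg m ≤ lg m * lg n := le_mul_of_one_le_right (by linarith) h4
  have h6 : lg n ≤ lg m * lg n := le_mul_of_one_le_left (by linarith) h3
  linarith

/-- the label -/
noncomputable def lab (τ : Ei → ZMod 3) (A B : Finset Ei) (t : ZMod 3) (π : Ei) : ZMod 3 :=
  ∑ u ∈ A, cs u π - ∑ u ∈ B, cs u π + t * τ π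

lemma split (S : Finset Ei) (v : Ei → ZMod 3) (g : Ei → ZMod 3) :
    ∑ u ∈ S, v u * g u = ∑ u ∈ S.filter (fun u => v u = 1), g u -
      ∑ u ∈ S.filter (fun u => v u = 2), g u := by
  rw [sum_filter, sum_filter, ← sum_sub_distrib]
  refine sum_congr rfl fun u _ => ?_
  have key : ∀ a b : ZMod 3, a * b = (if a = 1 then b else 0) - (if a = 2 then b else 0) := by
    decide
  exact key (v u) (g u)

lemma split_disj (S : Finset Ei) (v : Ei → ZMod 3) :
    Disjoint (S.filter fun u => v u = 1) (S.filter fun u => v u = 2) := by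
  rw [disjoint_left]
  intro x hx hx2
  rw [mem_filter] at hx hx2
  rw [hx.2] at hx2
  exact absurd hx2.2 (by decide)

lemma split_ne (S : Finset Ei) (v : Ei → ZMod 3) (h : ∃ u ∈ S, v u ≠ 0) :
    (S.filter fun u => v u = 1) ≠ (S.filter fun u => v u = 2) := by
  obtain ⟨u, hu, hu0⟩ := h
  intro heq
  have key : ∀ c : ZMod 3, c ≠ 0 → c = 1 ∨ c = 2 := by decide
  rcases key (v u) hu0 with h1 | h1
  · have : u ∈ S.filter fun u => v u = 2 := by
      rw [← heq, mem_filter]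
      exact ⟨hu, h1⟩
    rw [mem_filter, h1] at this
    exact absurd this.2 (by decide)
  · have : u ∈ S.filter fun u => v u = 1 := by
      rw [heq, mem_filter]
      exact ⟨hu, h1⟩
    rw [mem_filter, h1] at this
    exact absurd this.2 (by decide)

/-- degenerate with at most `W` exceptions -/
def DW (τ : Ei → ZMod 3) (Q : Finset Ei) (V : ℕ) (S₀ T : Finset Ei) (A B : Finset Ei)
    (t : ZMod 3) : Prop :=
  A ⊆ S₀ ∪ Q ∧ B ⊆ S₀ ∪ Q ∧ Disjoint A B ∧ (A ≠ B ∨ t ≠ 0) ∧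
    (T.filter fun π => lab τ A B t π ≠ 0).card ≤ 2 * (S₀ ∪ Q).card + V

lemma not_NdQ {Q : Finset Ei} {V : ℕ} {S₀ T : Finset Ei} (h : ¬ NdQ Q V S₀ T) :
    ∃ x : ZMod 3 × ZMod 3, x ≠ 0 ∧ ∃ A B t, DW (ta x) Q V S₀ T A B t := by
  -- a general form of both cases
  have key : ∀ (S : Finset Ei) (v : Ei → ZMod 3) (t s : ZMod 3), S ⊆ S₀ ∪ Q →
      ((∃ u ∈ S, v u ≠ 0) ∨ t ≠ 0 ∨ s ≠ 0) →
      (T.filter fun π => ∑ u ∈ S, v u * cs u π + t * nq π + s * yq π ≠ 0).card ≤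
        2 * (S₀ ∪ Q).card + V →
      ∃ x : ZMod 3 × ZMod 3, x ≠ 0 ∧ ∃ A B t, DW (ta x) Q V S₀ T A B t := by
    intro S v t s hS h1 h2
    by_cases h0 : (t, s) = (0, 0)
    · have ht : t = 0 := congrArg Prod.fst h0
      have hs : s = 0 := congrArg Prod.snd h0
      subst ht hs
      refine ⟨(1, 0), by decide, S.filter fun u => v u = 1, S.filter fun u => v u = 2, 0,
        (filter_subset _ _).trans hS, (filter_subset _ _).trans hS, split_disj S v, ?_, ?_⟩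
      · left
        refine split_ne S v ?_
        rcases h1 with h1 | h1 | h1
        · exact h1
        · exact absurd rfl h1
        · exact absurd rfl h1
      · refine le_trans (le_of_eq ?_) h2
        congr 1
        refine filter_congr fun π _ => ?_
        unfold lab
        rw [split S v fun u => cs u π]
        simp
    · refine ⟨(t, s), h0, S.filter fun u => v u = 1, S.filter fun u => v u = 2, 1,
        (filter_subset _ _).trans hS, (filter_subset _ _).trans hS, split_disj S v,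
        Or.inr one_ne_zero, ?_⟩
      refine le_trans (le_of_eq ?_) h2
      congr 1
      refine filter_congr fun π _ => ?_
      unfold lab ta
      rw [split S v fun u => cs u π]
      have : ∑ u ∈ S.filter (fun u => v u = 1), cs u π -
          ∑ u ∈ S.filter (fun u => v u = 2), cs u π + 1 * (t * nq π + s * yq π) =
          ∑ u ∈ S.filter (fun u => v u = 1), cs u π -
          ∑ u ∈ S.filter (fun u => v u = 2), cs u π + t * nq π + s * yq π := by ring
      rw [this]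
  unfold NdQ at h
  rw [not_and_or] at h
  rcases h with h | h
  · unfold NdN at h
    push Not at h
    obtain ⟨v, t, s, h1, h2⟩ := h
    refine key (S₀ ∪ Q) v t s (Subset.refl _) h1 ?_
    have : (T.filter fun π => ∑ u ∈ S₀ ∪ Q, v u * cs u π + t * nq π + s * yq π ≠ 0) = ∅ := by
      rw [filter_eq_empty_iff]
      intro π hπ hne
      exact hne (h2 π hπ)
    rw [this, card_empty]
    exact Nat.zero_le _
  · push Not at h
    obtain ⟨f, t, s, h1, h2⟩ := h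
    exact key Q f t s subset_union_right h1 h2.le

section count
variable {τ : Ei → ZMod 3}

/-- the mean value estimate -/
def HB4 (τ : Ei → ZMod 3) (C : ℝ) : Prop := ∀ (A B : Ei) (t : ZMod 3), PS A →
  PS B → (A ≠ B ∨ t ≠ 0) →
  ∀ T : ℕ, ∑ n ∈ SB T, mf (fun π => if xab A B π * ez (t * τ π) = 1 then 1 else 1 / 24) n ≤
    C * (lg (nrm A * nrm B)) ^ (1 / 3 : ℝ) * (T * (lg T) ^ (-(1 / 4) : ℝ))

theorem pairW {C : ℝ} (hC0 : 1 ≤ C) (hC : HB4 τ C) (Q : Finset Ei) (X z : ℕ) (S₀ : Finset Ei)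
    (hS₀ : ∀ u ∈ S₀ ∪ Q, Pq u ∧ nrm u ≤ z)
    (A B : Finset Ei) (t : ZMod 3) (hA : A ⊆ S₀ ∪ Q) (hB : B ⊆ S₀ ∪ Q) (hd : Disjoint A B)
    (hAB : A ≠ B ∨ t ≠ 0) (W : ℕ)
    (F : Finset (Finset Ei)) (hF : ∀ S ∈ F, (S ∈ SG X ∧ sm z S = S₀) ∧
      ((la z S).filter fun π => lab τ A B t π ≠ 0).card ≤ W) :
    (F.card : ℝ) ≤ 24 ^ W * (C * (2 * lg (pN S₀) * lg (pN Q))) * (((X / pN S₀ : ℕ) : ℝ) *
          (lg (X / pN S₀)) ^ (-(1 / 4) : ℝ)) := by
  obtain ⟨a1, a2⟩ := PS_prod (S := A) fun π hπ => (hS₀ π (hA hπ)).1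
  obtain ⟨b1, b2⟩ := PS_prod (S := B) fun π hπ => (hS₀ π (hB hπ)).1
  set a := ∏ π ∈ A, π with ha
  set b := ∏ π ∈ B, π with hb
  have hab : a ≠ b ∨ t ≠ 0 := by
    rcases hAB with h | h
    · left
      intro h'
      apply h
      rw [← a2, ← b2, h']
    · exact Or.inr h
  have hval : ∀ S ∈ F, ∀ π ∈ la z S, xab a b π * ez (t * τ π) = ez (lab τ A B t π) := by
    intro S hS π hπ
    obtain ⟨⟨h1, h2⟩, h3⟩ := hF S hS
    have hπq : Pq π ∧ ¬ nrm π ≤ z := by
      unfold la at hπ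
      rw [mem_filter] at hπ
      unfold SG at h1
      rw [mem_filter] at h1
      exact ⟨h1.2.1.1 π hπ.1, hπ.2⟩
    have hchi : ∀ u ∈ S₀ ∪ Q, chi u π = ez (cs u π) := by
      intro u hu
      refine chi_of fun hdv => ?_
      have := eq_of_dvd (hS₀ u hu).1 hπq.1 hdv
      subst this
      exact hπq.2 (hS₀ u hu).2
    unfold xab jac lab
    rw [a2, b2, prod_congr rfl fun u hu => hchi u (hA hu), prod_congr rfl fun u hu => hchi u (hB hu),
      ← Pool.Agent.Y433.XK.ez_sum, ← Pool.Agent.Y433.XK.ez_sum, conj_ez, ← ez_add,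
      ← sub_eq_add_neg, ← ez_add]
  have h := fiber_le X z S₀ (fun u hu => (hS₀ u (mem_union_left _ hu)).1) F
    (fun S hS => (hF S hS).1)
    (fun π => if xab a b π * ez (t * τ π) = 1 then 1 else 1 / 24) (fun π => by
      show (0 : ℝ) ≤ if _ then _ else _
      split_ifs <;> norm_num) ((1 / 24) ^ W) (fun S hS => by
      have h1 : ∏ π ∈ la z S, (if lab τ A B t π ≠ 0 then (1 / 24 : ℝ) else 1) =
          (1 / 24) ^ ((la z S).filter fun π => lab τ A B t π ≠ 0).card := by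
        rw [← prod_filter, prod_const]
      calc (1 / 24 : ℝ) ^ W ≤ (1 / 24) ^ ((la z S).filter fun π => lab τ A B t π ≠ 0).card :=
            pow_le_pow_of_le_one (by norm_num) (by norm_num) (hF S hS).2
        _ = _ := h1.symm
        _ ≤ _ := by
          refine prod_le_prod (fun π _ => by split_ifs <;> norm_num) fun π hπ => ?_
          by_cases hl : lab τ A B t π = 0
          · rw [if_neg (not_not.2 hl), if_pos]
            rw [hval S hS π hπ, hl, ez_zero]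
          · rw [if_pos hl]
            split_ifs <;> norm_num)
  have hW : (24 : ℝ) ^ W * (1 / 24) ^ W = 1 := by
    rw [← mul_pow]
    norm_num
  have hsum := hC a b t a1 b1 hab (X / pN S₀)
  have hS₀p : ∀ u ∈ S₀, Pq u := fun u hu => (hS₀ u (mem_union_left _ hu)).1
  have hQp : ∀ u ∈ Q, Pq u := fun u hu => (hS₀ u (mem_union_right _ hu)).1
  have hnn : nrm a * nrm b ≤ pN S₀ * pN Q := by
    have e1 : nrm a * nrm b ≤ ∏ u ∈ S₀ ∪ Q, nrm u := by
      rw [ha, hb, nrm_prod, nrm_prod, ← prod_union hd]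
      refine prod_le_prod_of_subset_of_one_le' (union_subset hA hB) fun u hu _ => ?_
      exact nrm_pos' (pq_ne (hS₀ u hu).1)
    have e2 : ∏ u ∈ S₀ ∪ Q, nrm u ≤ pN S₀ * pN Q := by
      have e3 := prod_union_inter (s₁ := S₀) (s₂ := Q) (f := fun u => nrm u)
      unfold pN
      rw [← e3]
      refine Nat.le_mul_of_pos_right _ (prod_pos fun u hu => ?_)
      exact nrm_pos' (pq_ne (hS₀p u (mem_inter.1 hu).1))
    exact e1.trans e2
  have h4 : (lg (nrm a * nrm b)) ^ (1 / 3 : ℝ) ≤ 2 * lg (pN S₀) * lg (pN Q) := by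
    calc (lg (nrm a * nrm b)) ^ (1 / 3 : ℝ) ≤ (lg (nrm a * nrm b)) ^ (1 : ℝ) :=
          Real.rpow_le_rpow_of_exponent_le (one_le_lg _) (by norm_num)
      _ = lg (nrm a * nrm b) := Real.rpow_one _
      _ ≤ lg (pN S₀ * pN Q) := lg_mono hnn
      _ ≤ _ := lg_mul_le (pN_pos hS₀p) (pN_pos hQp)
  have hTl : 0 ≤ ((X / pN S₀ : ℕ) : ℝ) * (lg (X / pN S₀)) ^ (-(1 / 4) : ℝ) :=
    mul_nonneg (Nat.cast_nonneg _) (Real.rpow_nonneg (zero_le_one.trans (one_le_lg _)) _)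
  have hC0' : 0 ≤ C := by linarith
  have h5 : (F.card : ℝ) * (1 / 24) ^ W ≤ (C * (2 * lg (pN S₀) * lg (pN Q))) *
      (((X / pN S₀ : ℕ) : ℝ) * (lg (X / pN S₀)) ^ (-(1 / 4) : ℝ)) := by
    refine h.trans (hsum.trans ?_)
    gcongr
  calc (F.card : ℝ) = 24 ^ W * ((F.card : ℝ) * (1 / 24) ^ W) := by
        linear_combination (-(F.card : ℝ)) * hW
    _ ≤ 24 ^ W * ((C * (2 * lg (pN S₀) * lg (pN Q))) *
      (((X / pN S₀ : ℕ) : ℝ) * (lg (X / pN S₀)) ^ (-(1 / 4) : ℝ))) :=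
        mul_le_mul_of_nonneg_left h5 (by positivity)
    _ = _ := by ring

theorem badW {C : ℝ} (hC0 : 1 ≤ C) (hC : HB4 τ C) (Q : Finset Ei) (V : ℕ)
    (X : ℕ) (S₀ : Finset Ei) (hS₀ : ∀ u ∈ S₀ ∪ Q, Pq u ∧ nrm u ≤ zz X)
    (G : Finset (Finset Ei))
    (hG : ∀ S ∈ G, S ∈ SG X ∧ (∃ A B t, DW τ Q V S₀ (la (zz X) S) A B t) ∧
      sm (zz X) S = S₀) : (G.card : ℝ) ≤
        (3 * 4 ^ Q.card * 24 ^ (2 * Q.card + V) * (C * (2 * lg (pN Q)))) * 2304 ^ S₀.card *
          lg (pN S₀) * (((X / pN S₀ : ℕ) : ℝ) * (lg (X / pN S₀)) ^ (-(1 / 4) : ℝ)) := by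
  set P : Finset ((Finset Ei × Finset Ei) × ZMod 3) :=
    ((S₀ ∪ Q).powerset ×ˢ (S₀ ∪ Q).powerset) ×ˢ univ with hP
  have hsub : G ⊆ P.biUnion fun p => G.filter fun S =>
      DW τ Q V S₀ (la (zz X) S) p.1.1 p.1.2 p.2 := by
    intro S hS
    obtain ⟨h1, ⟨A, B, t, h3⟩, h4⟩ := hG S hS
    rw [mem_biUnion]
    refine ⟨((A, B), t), ?_, ?_⟩
    · rw [hP, mem_product, mem_product, mem_powerset, mem_powerset]
      exact ⟨⟨h3.1, h3.2.1⟩, mem_univ _⟩
    · rw [mem_filter]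
      exact ⟨hS, h3⟩
  have h1 : (G.card : ℝ) ≤ ∑ p ∈ P, ((G.filter fun S =>
      DW τ Q V S₀ (la (zz X) S) p.1.1 p.1.2 p.2).card : ℝ) := by
    exact_mod_cast (card_le_card hsub).trans card_biUnion_le
  have hTl : 0 ≤ ((X / pN S₀ : ℕ) : ℝ) * (lg (X / pN S₀)) ^ (-(1 / 4) : ℝ) :=
    mul_nonneg (Nat.cast_nonneg _) (Real.rpow_nonneg (zero_le_one.trans (one_le_lg _)) _)
  have hlg := lg_pos (pN S₀)
  have hlq := lg_pos (pN Q)
  have hC0' : 0 ≤ C := by linarith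
  obtain ⟨W, hW⟩ : ∃ W : ℕ, W = 2 * (S₀ ∪ Q).card + V := ⟨_, rfl⟩
  obtain ⟨E, hE⟩ : ∃ E : ℝ, E = 24 ^ W * (C * (2 * lg (pN S₀) * lg (pN Q))) *
      (((X / pN S₀ : ℕ) : ℝ) * (lg (X / pN S₀)) ^ (-(1 / 4) : ℝ)) := ⟨_, rfl⟩
  have hE0 : 0 ≤ E := by rw [hE]; positivity
  have h2 : ∀ p ∈ P, ((G.filter fun S =>
      DW τ Q V S₀ (la (zz X) S) p.1.1 p.1.2 p.2).card : ℝ) ≤ E := by
    intro p hp
    rcases (G.filter fun S => DW τ Q V S₀ (la (zz X) S) p.1.1 p.1.2 p.2).eq_empty_or_nonempty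
      with he | ⟨S, hS⟩
    · rw [he, card_empty, Nat.cast_zero]
      exact hE0
    · have hS' := (mem_filter.1 hS).2
      rw [hE]
      refine pairW hC0 hC Q X (zz X) S₀ hS₀ p.1.1 p.1.2 p.2 hS'.1 hS'.2.1 hS'.2.2.1
        hS'.2.2.2.1 W _ ?_
      intro S hS
      rw [mem_filter] at hS
      have h := hG S hS.1
      refine ⟨⟨h.1, h.2.2⟩, ?_⟩
      rw [hW]
      exact hS.2.2.2.2.2
  have hcu : (S₀ ∪ Q).card ≤ S₀.card + Q.card := card_union_le _ _
  have h3 : (P.card : ℝ) ≤ 3 * (4 ^ Q.card * 4 ^ S₀.card) := by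
    have : P.card ≤ 3 * (4 ^ Q.card * 4 ^ S₀.card) := by
      rw [hP, card_product, card_product, card_powerset, ← mul_pow, card_univ, ZMod.card,
        ← pow_add, mul_comm]
      refine Nat.mul_le_mul_left _ ?_
      exact Nat.pow_le_pow_right (by norm_num) (by omega)
    exact_mod_cast this
  have h4 : (24 : ℝ) ^ W ≤ 24 ^ (2 * Q.card + V) * 576 ^ S₀.card := by
    have e : (576 : ℝ) ^ S₀.card = 24 ^ (2 * S₀.card) := by
      rw [pow_mul]
      norm_num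
    rw [e, ← pow_add]
    exact pow_le_pow_right₀ (by norm_num) (by omega)
  calc (G.card : ℝ) ≤ ∑ p ∈ P, E := h1.trans (sum_le_sum h2)
    _ = P.card * E := by rw [sum_const, nsmul_eq_mul]
    _ ≤ (3 * (4 ^ Q.card * 4 ^ S₀.card)) * E := mul_le_mul_of_nonneg_right h3 hE0
    _ ≤ (3 * (4 ^ Q.card * 4 ^ S₀.card)) * ((24 ^ (2 * Q.card + V) * 576 ^ S₀.card) *
        (C * (2 * lg (pN S₀) * lg (pN Q))) *
        (((X / pN S₀ : ℕ) : ℝ) * (lg (X / pN S₀)) ^ (-(1 / 4) : ℝ))) := by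
        rw [hE]
        gcongr
    _ = (3 * 4 ^ Q.card * 24 ^ (2 * Q.card + V) * (C * (2 * lg (pN Q)))) *
        (4 ^ S₀.card * 576 ^ S₀.card) *
          lg (pN S₀) * (((X / pN S₀ : ℕ) : ℝ) * (lg (X / pN S₀)) ^ (-(1 / 4) : ℝ)) := by ring
    _ = _ := by
        rw [← mul_pow]
        norm_num

end count

lemma zz_large (Q : Finset Ei) : ∃ X₁ : ℕ, ∀ X : ℕ, X₁ ≤ X → ∀ q ∈ Q, nrm q ≤ zz X := by
  have h := Pool.Agent.Y495.CX.Few.eL_tendsto.eventually
    (eventually_ge_atTop (max 1 ((Q.sup nrm : ℕ) : ℝ)))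
  obtain ⟨X₁, hX₁⟩ := eventually_atTop.1 h
  refine ⟨X₁, fun X hX q hq => ?_⟩
  have h1 := hX₁ X hX
  have h2 : 1 ≤ eL X := (le_max_left _ _).trans h1
  have h3 : ((Q.sup nrm : ℕ) : ℝ) ≤ eL X := (le_max_right _ _).trans h1
  unfold zz
  apply Nat.le_floor
  have h4 : (nrm q : ℝ) ≤ ((Q.sup nrm : ℕ) : ℝ) := by
    exact_mod_cast Finset.le_sup (f := nrm) hq
  have h5 : eL X ≤ eL X ^ 3 := by
    have : eL X ^ 1 ≤ eL X ^ 3 := pow_le_pow_right₀ h2 (by norm_num)
    rwa [pow_one] at this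
  have h6 := Real.add_one_le_exp ((eL X) ^ 3)
  linarith

theorem t_BADQ : S_BADQ := by
  intro hgen hhal Q V hQ ε hε
  obtain ⟨X₁, hX₁⟩ := zz_large Q
  have h1 : ∀ x : ZMod 3 × ZMod 3, ∃ X₀ : ℕ, ∀ X : ℕ, X₀ ≤ X → x ≠ 0 →
      (((SG X).filter fun S => S.card ≤ Pool.Agent.Y703.CX.kk X ∧ (X₁ ≤ X ∧
        ∃ A B t, DW (ta x) Q V (sm (zz X) S) (la (zz X) S) A B t)).card : ℝ) ≤ ε / 9 * X := by
    intro x
    by_cases hx : x = 0
    · exact ⟨0, fun X _ h => absurd hx h⟩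
    · obtain ⟨C, hC0, hC⟩ := hhal (ta x) (tau_ta hx)
      have hlq := lg_pos (pN Q)
      have hC0' : 0 ≤ C := by linarith
      obtain ⟨X₀, hX₀⟩ := hgen 2304
        (3 * 4 ^ Q.card * 24 ^ (2 * Q.card + V) * (C * (2 * lg (pN Q)))) (by norm_num)
        (by positivity)
        (fun X S => X₁ ≤ X ∧ ∃ A B t, DW (ta x) Q V (sm (zz X) S) (la (zz X) S) A B t)
        (fun X S₀ hS₀ _ F hF => by
          rcases F.eq_empty_or_nonempty with he | ⟨S, hS⟩
          · rw [he, card_empty, Nat.cast_zero]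
            have hTl : 0 ≤ ((X / pN S₀ : ℕ) : ℝ) * (lg (X / pN S₀)) ^ (-(1 / 4) : ℝ) :=
              mul_nonneg (Nat.cast_nonneg _)
                (Real.rpow_nonneg (zero_le_one.trans (one_le_lg _)) _)
            have hlg := lg_pos (pN S₀)
            positivity
          · have hX : X₁ ≤ X := (hF S hS).2.1.2.1
            refine badW hC0 hC Q V X S₀ (fun u hu => ?_) F (fun S hS => ?_)
            · rw [mem_union] at hu
              rcases hu with hu | hu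
              · exact hS₀ u hu
              · exact ⟨hQ u hu, hX₁ X hX u hu⟩
            · have h := hF S hS
              refine ⟨h.1, ?_, h.2.2⟩
              have h2 := h.2.1.2.2
              rw [h.2.2] at h2
              exact h2) (ε / 9) (by positivity)
      refine ⟨X₀, fun X hX _ => hX₀ X hX _ fun S hS => ?_⟩
      rw [mem_filter] at hS
      exact hS
  choose X₀ hX₀ using h1
  refine ⟨max X₁ (univ.sup X₀), fun X hX => ?_⟩
  have hX1 : X₁ ≤ X := (le_max_left _ _).trans hX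
  have hX2 : univ.sup X₀ ≤ X := (le_max_right _ _).trans hX
  have hsub : ((SG X).filter fun S => S.card ≤ Pool.Agent.Y703.CX.kk X ∧
      ¬ NdQ Q V (sm (zz X) S) (la (zz X) S)) ⊆
      (univ.filter fun x : ZMod 3 × ZMod 3 => x ≠ 0).biUnion fun x =>
        (SG X).filter fun S => S.card ≤ Pool.Agent.Y703.CX.kk X ∧ (X₁ ≤ X ∧
          ∃ A B t, DW (ta x) Q V (sm (zz X) S) (la (zz X) S) A B t) := by
    intro S hS
    rw [mem_filter] at hS
    obtain ⟨x, hx, hx2⟩ := not_NdQ hS.2.2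
    rw [mem_biUnion]
    exact ⟨x, mem_filter.2 ⟨mem_univ _, hx⟩, mem_filter.2 ⟨hS.1, hS.2.1, hX1, hx2⟩⟩
  have h2 : (((SG X).filter fun S => S.card ≤ Pool.Agent.Y703.CX.kk X ∧
      ¬ NdQ Q V (sm (zz X) S) (la (zz X) S)).card : ℝ) ≤
      ∑ x ∈ univ.filter (fun x : ZMod 3 × ZMod 3 => x ≠ 0),
        (((SG X).filter fun S => S.card ≤ Pool.Agent.Y703.CX.kk X ∧ (X₁ ≤ X ∧
          ∃ A B t, DW (ta x) Q V (sm (zz X) S) (la (zz X) S) A B t)).card : ℝ) := by
    exact_mod_cast (card_le_card hsub).trans card_biUnion_le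
  have h3 : ∑ x ∈ univ.filter (fun x : ZMod 3 × ZMod 3 => x ≠ 0),
        (((SG X).filter fun S => S.card ≤ Pool.Agent.Y703.CX.kk X ∧ (X₁ ≤ X ∧
          ∃ A B t, DW (ta x) Q V (sm (zz X) S) (la (zz X) S) A B t)).card : ℝ) ≤
      ∑ _x ∈ univ.filter (fun x : ZMod 3 × ZMod 3 => x ≠ 0), ε / 9 * X := by
    refine sum_le_sum fun x hx => hX₀ x X ?_ (mem_filter.1 hx).2
    exact (Finset.le_sup (f := X₀) (mem_univ x)).trans hX2
  have h4 : (univ.filter fun x : ZMod 3 × ZMod 3 => x ≠ 0).card = 8 := by decide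
  rw [sum_const, h4, nsmul_eq_mul] at h3
  have h5 : (0 : ℝ) ≤ ε * X := by positivity
  push_cast at h3
  linarith

end Pool.Agent.D0H98.JT
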