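import Pool.Agent.D0H69.JT.Stm

/-! # Without relation the number of the tuples is a product -/

set_option autoImplicit false
set_option linter.unusedVariables false

open scoped Classical

namespace Pool.Agent.D0H98.JT

open Finset Pool.Agent.D0H69.JT

/-- the intersection of `P` with the graph of `S` as a subspace -/
def KS {ι : Type} [Fintype ι] (P : Submodule (ZMod 3) (X ι)) (S : Matrix ι ι (ZMod 3)) :
    Submodule (ZMod 3) (X ι) where
  carrier := {x | x ∈ P ∧ Gr S x}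
  add_mem' := by
    rintro x y ⟨hx, hx'⟩ ⟨hy, hy'⟩
    refine ⟨P.add_mem hx hy, ?_⟩
    unfold Gr at *
    rw [Prod.fst_add, Prod.snd_add, Matrix.mulVec_add, hx', hy']
  zero_mem' := by
    refine ⟨P.zero_mem, ?_⟩
    unfold Gr
    rw [Prod.fst_zero, Prod.snd_zero, Matrix.mulVec_zero]
  smul_mem' := by
    rintro c x ⟨hx, hx'⟩
    refine ⟨P.smul_mem _ hx, ?_⟩
    unfold Gr at *
    rw [Prod.smul_fst, Prod.smul_snd, Matrix.mulVec_smul, hx']

lemma mem_KS {ι : Type} [Fintype ι] (P : Submodule (ZMod 3) (X ι)) (S : Matrix ι ι (ZMod 3))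
    (x : X ι) : x ∈ KS P S ↔ x ∈ P ∧ Gr S x := Iff.rfl

lemma kk_eq {ι : Type} [Fintype ι] (P : Submodule (ZMod 3) (X ι)) (S : Matrix ι ι (ZMod 3)) :
    kk P S = Nat.card (KS P S) := rfl

/-- the number of linearly independent tuples -/
lemma card_li (V : Type) [AddCommGroup V] [Module (ZMod 3) V] [Finite V] (k : ℕ) :
    (Nat.card {s : Fin k → V // LinearIndependent (ZMod 3) s} : ℝ) =
      ∏ i ∈ range k, ((Nat.card V : ℝ) - 3 ^ i) := by
  have := Fintype.ofFinite V
  have hV : Nat.card V = 3 ^ Module.finrank (ZMod 3) V := by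
    rw [Module.natCard_eq_pow_finrank (K := ZMod 3), Nat.card_eq_fintype_card, ZMod.card]
  rcases le_or_gt k (Module.finrank (ZMod 3) V) with h | h
  · rw [card_linearIndependent h, ZMod.card, Nat.cast_prod, ← Fin.prod_univ_eq_prod_range
      (fun i => ((Nat.card V : ℝ) - 3 ^ i)) k]
    refine Finset.prod_congr rfl fun i _ => ?_
    rw [hV, Nat.cast_sub (Nat.pow_le_pow_right (by norm_num) (i.2.le.trans h))]
    push_cast
    rfl
  · have h1 : IsEmpty {s : Fin k → V // LinearIndependent (ZMod 3) s} := by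
      refine ⟨fun s => ?_⟩
      have := s.2.fintype_card_le_finrank
      rw [Fintype.card_fin] at this
      omega
    rw [Nat.card_of_isEmpty, Nat.cast_zero, eq_comm, Finset.prod_eq_zero (mem_range.2 h)]
    rw [hV]
    push_cast
    ring

/-- independent tuples in the intersection -/
def QQ {ι : Type} [Fintype ι] (P : Submodule (ZMod 3) (X ι)) (S : Matrix ι ι (ZMod 3)) (k : ℕ) :
    Set (Fin k → X ι) := {s | (∀ i, s i ∈ KS P S) ∧ LinearIndependent (ZMod 3) s}

lemma QQ_card {ι : Type} [Fintype ι] (P : Submodule (ZMod 3) (X ι)) (S : Matrix ι ι (ZMod 3))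
    (k : ℕ) : (Nat.card (QQ P S k) : ℝ) = ∏ i ∈ range k, ((kk P S : ℝ) - 3 ^ i) := by
  rw [kk_eq, ← card_li]
  congr 1
  refine Nat.card_congr ⟨fun s => ⟨fun i => ⟨s.1 i, s.2.1 i⟩, ?_⟩,
    fun s => ⟨fun i => (s.1 i : X ι), fun i => (s.1 i).2, ?_⟩, fun s => rfl, fun s => rfl⟩
  · exact LinearIndependent.of_comp (KS P S).subtype s.2.2
  · exact s.2.map' (KS P S).subtype (Submodule.ker_subtype _)

lemma li_iff {κ ι : Type} [Fintype κ] [Fintype ι] [DecidableEq ι]
    (P : κ → Submodule (ZMod 3) (X ι)) (n : κ → ℕ) (S : Matrix ι ι (ZMod 3)) (hS : ¬ Rel P S)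
    (x : (Σ j, Fin (n j)) → X ι) (hx : ∀ i, x i ∈ P i.1 ∧ Gr S (x i)) :
    LinearIndependent (ZMod 3) (fun i => (x i).1) ↔
      ∀ j, LinearIndependent (ZMod 3) (fun k : Fin (n j) => x ⟨j, k⟩) := by
  constructor
  · intro h j
    have h1 : LinearIndependent (ZMod 3) (fun k : Fin (n j) => (x ⟨j, k⟩).1) :=
      h.comp (fun k : Fin (n j) => (⟨j, k⟩ : Σ j, Fin (n j)))
        (fun a b h => eq_of_heq (Sigma.mk.inj h).2)
    exact LinearIndependent.of_comp (LinearMap.fst (ZMod 3) (ι → ZMod 3) (ι → ZMod 3)) h1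
  · intro h
    rw [Fintype.linearIndependent_iff]
    intro a ha
    set y : κ → X ι := fun j => ∑ k : Fin (n j), a ⟨j, k⟩ • x ⟨j, k⟩ with hy
    have hyP : ∀ j, y j ∈ KS (P j) S := by
      intro j
      exact (KS (P j) S).sum_mem fun k _ => (KS (P j) S).smul_mem _ (hx ⟨j, k⟩)
    have hsum : ∑ j, y j = ∑ i, a i • x i := by
      rw [Fintype.sum_sigma]
    have hs2 : ∑ j, y j = 0 := by
      have e1 : (∑ j, y j).1 = 0 := by
        rw [hsum, Prod.fst_sum]
        exact ha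
      have e2 : (∑ j, y j).2 = S.mulVec (∑ j, y j).1 := by
        rw [Prod.snd_sum, Prod.fst_sum]
        have : S.mulVec (∑ j, (y j).1) = ∑ j, S.mulVec (y j).1 := by
          exact map_sum (Matrix.mulVecLin S) _ _
        rw [this]
        exact Finset.sum_congr rfl fun j _ => (hyP j).2.symm
      rw [e1, Matrix.mulVec_zero] at e2
      exact Prod.ext e1 e2
    have hyz : y = 0 := by
      by_contra hne
      exact hS ⟨y, hyP, hne, hs2⟩
    rintro ⟨j, k⟩
    have h1 := Fintype.linearIndependent_iff.1 (h j) (fun k => a ⟨j, k⟩) (congrFun hyz j) k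
    exact h1

theorem t_GOOD : S_GOOD := by
  intro κ ι _ _ _ P n S hS
  have h1 : (JJ P n S).ncard = Nat.card (∀ j, QQ (P j) S (n j)) := by
    show Nat.card (JJ P n S) = _
    refine Nat.card_congr ⟨fun x j => ⟨fun k => x.1 ⟨j, k⟩, ?_⟩,
      fun y => ⟨fun i => (y i.1).1 i.2, ?_⟩, fun x => rfl, fun y => rfl⟩
    · exact ⟨fun k => ⟨x.2.1 ⟨j, k⟩, x.2.2.1 ⟨j, k⟩⟩,
        (li_iff P n S hS x.1 fun i => ⟨x.2.1 i, x.2.2.1 i⟩).1 x.2.2.2 j⟩
    · refine ⟨fun i => ((y i.1).2.1 i.2).1, fun i => ((y i.1).2.1 i.2).2, ?_⟩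
      exact (li_iff P n S hS (fun i => (y i.1).1 i.2) fun i => (y i.1).2.1 i.2).2
        fun j => (y j).2.2
  rw [h1, Nat.card_pi, Nat.cast_prod]
  exact Finset.prod_congr rfl fun j _ => QQ_card (P j) S (n j)

end Pool.Agent.D0H98.JT
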