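import Pool.Agent.D0H69.JT.Stm

/-! # Few tuples have linearly dependent first components -/

set_option autoImplicit false
set_option linter.unusedVariables false

open scoped Classical

namespace Pool.Agent.D0H98.JT

open Finset Pool.Agent.D0H69.JT

/-- fibre counting -/
lemma fiber_count {I Y : Type} [Fintype I] [DecidableEq I] [Finite Y] (S : I → Set Y) (q c : ℕ)
    (hq : ∀ i, (S i).ncard ≤ q) (i₀ : I) (B : Set (I → Y)) (hB : ∀ x ∈ B, ∀ i, x i ∈ S i)
    (hc : ∀ x : I → Y, ({y | Function.update x i₀ y ∈ B} : Set Y).ncard ≤ c) :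
    B.ncard ≤ c * q ^ (Fintype.card I - 1) := by
  have := Fintype.ofFinite Y
  set B' : Finset (I → Y) := univ.filter (· ∈ B) with hB'
  have hBc : B.ncard = B'.card := by
    rw [← Set.ncard_coe_finset]
    congr 1
    ext x
    simp [hB']
  set r : (I → Y) → ({i // i ≠ i₀} → Y) := fun x i => x i with hr
  set T : Finset ({i // i ≠ i₀} → Y) :=
    Fintype.piFinset fun i => univ.filter (fun y => y ∈ S i) with hT
  have hS : ∀ i, (univ.filter (fun y => y ∈ S i)).card ≤ q := by
    intro i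
    have : (univ.filter (fun y => y ∈ S i)).card = (S i).ncard := by
      rw [← Set.ncard_coe_finset]
      congr 1
      ext x
      simp
    rw [this]
    exact hq i
  have hTc : T.card ≤ q ^ (Fintype.card I - 1) := by
    rw [hT, Fintype.card_piFinset]
    calc ∏ i : {i // i ≠ i₀}, (univ.filter (fun y => y ∈ S i)).card
        ≤ ∏ i : {i // i ≠ i₀}, q := Finset.prod_le_prod' fun i _ => hS i
      _ = q ^ (Fintype.card I - 1) := by
        rw [Finset.prod_const, Finset.card_univ]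
        congr 1
        rw [Fintype.card_subtype_compl, Fintype.card_subtype_eq]
  rw [hBc]
  refine (card_le_mul_card_image_of_maps_to (f := r) (t := T) ?_ c ?_).trans
    (Nat.mul_le_mul_left _ hTc)
  · intro x hx
    rw [hB', mem_filter] at hx
    rw [hT, Fintype.mem_piFinset]
    intro i
    rw [mem_filter]
    exact ⟨mem_univ _, hB x hx.2 i⟩
  · intro z hz
    by_cases hne : ({a ∈ B' | r a = z}).Nonempty
    · obtain ⟨x₀, hx₀⟩ := hne
      rw [mem_filter] at hx₀
      have h1 : ({a ∈ B' | r a = z}).card ≤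
          (univ.filter fun y => Function.update x₀ i₀ y ∈ B).card := by
        apply Finset.card_le_card_of_injOn (fun a => a i₀)
        · intro a ha
          have ha' := mem_filter.1 ha
          have e : Function.update x₀ i₀ (a i₀) = a := by
            funext i
            by_cases h : i = i₀
            · subst h; simp
            · rw [Function.update_of_ne h]
              have := congrFun (hx₀.2.trans ha'.2.symm) ⟨i, h⟩
              exact this
          have h2 : a ∈ B := (mem_filter.1 ha'.1).2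
          simp only [coe_filter, mem_univ, true_and, Set.mem_ofPred_eq]
          rw [e]
          exact h2
        · intro a ha b hb hab
          have ha' := mem_filter.1 ha
          have hb' := mem_filter.1 hb
          funext i
          by_cases h : i = i₀
          · subst h; exact hab
          · exact congrFun (ha'.2.trans hb'.2.symm) ⟨i, h⟩
      have h2 : (univ.filter fun y => Function.update x₀ i₀ y ∈ B).card ≤ c := by
        refine le_trans (le_of_eq ?_) (hc x₀)
        rw [← Set.ncard_coe_finset]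
        congr 1
        ext x
        simp
      exact h1.trans h2
    · rw [not_nonempty_iff_eq_empty.1 hne, card_empty]
      exact Nat.zero_le _

lemma fiber_real {I Y : Type} [Fintype I] [DecidableEq I] [Finite Y] (S : I → Set Y) (N : ℕ) (δ : ℝ) (hδ : 0 ≤ δ)
    (hq : ∀ i, (S i).ncard ≤ 3 ^ N) (i₀ : I) (B : Set (I → Y)) (hB : ∀ x ∈ B, ∀ i, x i ∈ S i)
    (hc : ∀ x : I → Y, (({y | Function.update x i₀ y ∈ B} : Set Y).ncard : ℝ) ≤ δ * 3 ^ N) :
    (B.ncard : ℝ) ≤ δ * 3 ^ (N * Fintype.card I) := by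
  have h1 := fiber_count S (3 ^ N) ⌊δ * 3 ^ N⌋₊ hq i₀ B hB fun x => Nat.le_floor (hc x)
  have h2 : (B.ncard : ℝ) ≤ (⌊δ * 3 ^ N⌋₊ : ℝ) * (3 ^ N) ^ (Fintype.card I - 1) := by
    exact_mod_cast h1
  have h3 : (⌊δ * 3 ^ N⌋₊ : ℝ) ≤ δ * 3 ^ N := Nat.floor_le (by positivity)
  have h4 : 1 ≤ Fintype.card I := Fintype.card_pos_iff.2 ⟨i₀⟩
  calc (B.ncard : ℝ) ≤ (δ * 3 ^ N) * (3 ^ N) ^ (Fintype.card I - 1) :=
        h2.trans (mul_le_mul_of_nonneg_right h3 (by positivity))
    _ = δ * ((3 ^ N) ^ (Fintype.card I - 1) * 3 ^ N) := by ring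
    _ = δ * 3 ^ (N * Fintype.card I) := by
        rw [← pow_succ, Nat.sub_add_cancel h4, ← pow_mul]

/-- sets with all differences in a given set -/
lemma ncard_le_of_sub {Y : Type} [AddGroup Y] [Finite Y] (A D : Set Y)
    (h : ∀ y ∈ A, ∀ y' ∈ A, y - y' ∈ D) : A.ncard ≤ D.ncard := by
  rcases A.eq_empty_or_nonempty with rfl | ⟨y₀, hy₀⟩
  · simp
  · refine Set.ncard_le_ncard_of_injOn (fun y => y - y₀) (fun y hy => h y hy y₀ hy₀) ?_
      (Set.toFinite _)
    intro a _ b _ hab
    exact sub_left_injective hab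

lemma sum_update {I Y M : Type} [Fintype I] [DecidableEq I] [AddCommGroup M] (f : I → Y → M) (x : I → Y)
    (i₀ : I) (y y' : Y) : ∑ i, f i (Function.update x i₀ y i) -
      ∑ i, f i (Function.update x i₀ y' i) = f i₀ y - f i₀ y' := by
  rw [← Finset.sum_sub_distrib, Finset.sum_eq_single i₀]
  · simp
  · intro b _ hb
    rw [Function.update_of_ne hb, Function.update_of_ne hb, sub_self]
  · intro h
    exact absurd (mem_univ _) h

lemma sum_update' {I Y M : Type} [Fintype I] [DecidableEq I] [AddCommGroup M] (f : I → Y → M) (x : I → Y)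
    (i₀ : I) (y y' : Y) (h : ∑ i, f i (Function.update x i₀ y i) = 0)
    (h' : ∑ i, f i (Function.update x i₀ y' i) = 0) : f i₀ y - f i₀ y' = 0 := by
  rw [← sum_update f x i₀ y y', h, h', sub_zero]

lemma lag_ncard {ι : Type} [Fintype ι] {P : Submodule (ZMod 3) (X ι)} (h : Lag P) :
    (P : Set (X ι)).ncard = 3 ^ Fintype.card ι := by
  rw [← h.card]; rfl

theorem t_IND : S_IND := by
  intro κ ι _ _ _ δ P n hδ hP
  set N := Fintype.card ι with hN
  have hr : Fintype.card (Σ j, Fin (n j)) = ∑ j, n j := by simp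
  set Bd : ((Σ j, Fin (n j)) → ZMod 3) → Set ((Σ j, Fin (n j)) → X ι) :=
    fun a => {x | x ∈ Tp P n ∧ ∑ i, a i • (x i).1 = 0} with hBd
  have h1 : ({x | x ∈ Tp P n ∧ ¬ LinearIndependent (ZMod 3) fun i => (x i).1} :
      Set ((Σ j, Fin (n j)) → X ι)) ⊆
      ⋃ a ∈ (univ.filter (fun a => a ≠ 0) : Finset ((Σ j, Fin (n j)) → ZMod 3)), Bd a := by
    rintro x ⟨hx, hli⟩
    rw [Fintype.linearIndependent_iff] at hli
    push Not at hli
    obtain ⟨a, ha, i, hi⟩ := hli
    rw [Set.mem_iUnion₂]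
    refine ⟨a, ?_, hx, ha⟩
    rw [mem_filter]
    exact ⟨mem_univ _, fun h => hi (by rw [h]; rfl)⟩
  have h2 : ∀ a ∈ (univ.filter (fun a => a ≠ 0) : Finset ((Σ j, Fin (n j)) → ZMod 3)),
      ((Bd a).ncard : ℝ) ≤ δ * 3 ^ (N * ∑ j, n j) := by
    intro a ha
    rw [mem_filter] at ha
    obtain ⟨i₀, hi₀⟩ := Function.ne_iff.1 ha.2
    have hi₀' : a i₀ ≠ 0 := hi₀
    rw [← hr]
    refine fiber_real (fun i => (P i.1 : Set (X ι))) N δ hδ
      (fun i => (lag_ncard (hP.lag i.1)).le) i₀ (Bd a) (fun x hx i => hx.1 i) ?_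
    intro x
    refine le_trans ?_ (hP.inf i₀.1)
    have h3 : ({y | Function.update x i₀ y ∈ Bd a} : Set (X ι)).ncard ≤
        ({z | z ∈ P i₀.1 ∧ z.1 = 0} : Set (X ι)).ncard := by
      apply ncard_le_of_sub
      intro y hy y' hy'
      have e1 := hy.1 i₀
      have e2 := hy'.1 i₀
      rw [Function.update_self] at e1 e2
      refine ⟨(P i₀.1).sub_mem e1 e2, ?_⟩
      have e3 : a i₀ • y.1 - a i₀ • y'.1 = 0 :=
        sum_update' (fun i (z : X ι) => a i • z.1) x i₀ y y' hy.2 hy'.2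
      rw [← smul_sub] at e3
      have e6 := (smul_eq_zero.1 e3).resolve_left hi₀'
      rw [Prod.fst_sub]
      exact e6
    have h4 : ({z | z ∈ P i₀.1 ∧ z.1 = 0} : Set (X ι)).ncard ≤ (Inf0 (P i₀.1)).ncard := by
      refine Set.ncard_le_ncard_of_injOn (fun z => z.2) ?_ ?_ (Set.toFinite _)
      · rintro ⟨z1, z2⟩ ⟨hz, hz0⟩
        have : z1 = 0 := hz0
        subst this
        exact hz
      · rintro ⟨z1, z2⟩ ⟨_, hz0⟩ ⟨w1, w2⟩ ⟨_, hw0⟩ h
        have e1 : z1 = 0 := hz0
        have e2 : w1 = 0 := hw0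
        have e3 : z2 = w2 := h
        rw [e1, e2, e3]
    exact_mod_cast h3.trans h4
  have h3 := Set.ncard_le_ncard h1 (Set.toFinite _)
  have h4 := h3.trans (Finset.set_ncard_biUnion_le _ _)
  have h5 : (({x | x ∈ Tp P n ∧ ¬ LinearIndependent (ZMod 3) fun i => (x i).1} :
      Set ((Σ j, Fin (n j)) → X ι)).ncard : ℝ) ≤
      ∑ a ∈ (univ.filter (fun a => a ≠ 0) : Finset ((Σ j, Fin (n j)) → ZMod 3)),
        ((Bd a).ncard : ℝ) := by exact_mod_cast h4
  have h6 : (((univ.filter (fun a => a ≠ 0) :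
      Finset ((Σ j, Fin (n j)) → ZMod 3))).card : ℝ) ≤ 3 ^ (∑ j, n j) := by
    have : (univ.filter (fun a => a ≠ 0) : Finset ((Σ j, Fin (n j)) → ZMod 3)).card ≤
        3 ^ (∑ j, n j) := by
      refine (card_filter_le _ _).trans (le_of_eq ?_)
      rw [card_univ, Fintype.card_fun, hr, ZMod.card]
    exact_mod_cast this
  rw [div_le_iff₀ (by positivity)]
  calc _ ≤ _ := h5
    _ ≤ ∑ a ∈ (univ.filter (fun a => a ≠ 0) : Finset ((Σ j, Fin (n j)) → ZMod 3)),
        δ * 3 ^ (N * ∑ j, n j) := Finset.sum_le_sum h2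
    _ = ((univ.filter (fun a => a ≠ 0) : Finset ((Σ j, Fin (n j)) → ZMod 3)).card : ℝ) *
        (δ * 3 ^ (N * ∑ j, n j)) := by rw [sum_const, nsmul_eq_mul]
    _ ≤ 3 ^ (∑ j, n j) * (δ * 3 ^ (N * ∑ j, n j)) :=
        mul_le_mul_of_nonneg_right h6 (by positivity)
    _ = _ := by ring

end Pool.Agent.D0H98.JT
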