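import Pool.Agent.D0H69.JT.StmA

/-! # The descriptions with row sums -/

set_option autoImplicit false
set_option linter.unusedVariables false

open scoped Classical

namespace Pool.Agent.D0H98.JT

open Finset
open Pool.Agent.Y692.QS (Ei)
open Pool.Agent.Y715.T.Rec (cs)
open Pool.Agent.Y715.T.RecG (Pq)
open Pool.Agent.Y703.XK (prs GdA)
open Pool.Agent.R419.KF (wt wt_one wt_ne GdW gdw_iff)
open Pool.Agent.Y688.XK (lb cs_symm sum_un)
open Pool.Agent.N883.FF (nq)
open Pool.Agent.D0H43.L3 (yq)
open Pool.Agent.D0H69.L3K (GdT)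
open Pool.Agent.D0H69.L0D (NtS)
open Pool.Agent.D0H69.L0D.Box (sg sg_self sg_ne ex_j0)
open Pool.Agent.D0H10.L9D.Box (LNB)
open Pool.Agent.D0H50.JL (Tup GdP GdG GdC qG)
open Pool.Agent.D0H69.JT

lemma card_le_one_of_none {ι : Type} [Fintype ι] (P : ι → Prop) [DecidablePred P] (h : ∀ k, ¬ P k) :
    (univ.filter P).card ≤ 1 := by
  rw [Finset.filter_eq_empty_iff.2 fun k _ => h k, card_empty]
  exact zero_le_one

/-- the description of `GdG` -/
theorem locE_G (r s t : ZMod 3) (hs : s ≠ 0) : LocE (r, s) (GdG r s t) := by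
  intro ι _ _ M S₀ γ δ hM hS₀ hcard β hβ
  refine ⟨Option (Option S₀), inferInstance,
    Pool.Agent.D0H50.JL.BoxG.Am r s (Pool.Agent.D0H50.JL.BoxG.zz0 t M S₀ γ) M S₀,
    Pool.Agent.D0H50.JL.BoxG.Bm r s M S₀ β γ δ, ?_, ?_, ?_, ?_, ?_⟩
  · rw [Fintype.card_option, Fintype.card_option, Fintype.card_coe]
  · intro u v
    rcases u with _ | _ | u <;> rcases v with _ | _ | v
    · rfl
    · rfl
    · rfl
    · rfl
    · rfl
    · rfl
    · rfl
    · rfl
    · show wt M u * wt M v * cs u v = wt M v * wt M u * cs v u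
      rw [cs_symm (hS₀ u u.2) (hS₀ v v.2), mul_comm (wt M u) (wt M v)]
  · intro w hw
    obtain ⟨k, hk⟩ := hβ (fun u => w (some (some u)) * wt M u)
      (w (some none) + w none * (r - 1)) (w none * s) (by
      by_cases h0 : w none = 0
      · by_cases h00 : w (some none) = 0
        · obtain ⟨u, hu⟩ := hw
          rcases u with _ | _ | u
          · exact absurd h0 hu
          · exact absurd h00 hu
          · exact Or.inl ⟨u, mul_ne_zero hu (wt_ne M u)⟩
        · refine Or.inr (Or.inl ?_)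
          rw [h0, zero_mul, add_zero]
          exact h00
      · exact Or.inr (Or.inr (mul_ne_zero h0 hs)))
    refine ⟨k, fun h0 => hk ?_⟩
    rw [← h0, Fintype.sum_option, Fintype.sum_option]
    have e1 : ∑ u : S₀, w (some (some u)) * Pool.Agent.D0H50.JL.BoxG.Bm r s M S₀ β γ δ
        (some (some u)) k = ∑ u : S₀, w (some (some u)) * wt M u * β k u := by
      refine Finset.sum_congr rfl fun u _ => ?_
      show w (some (some u)) * (wt M u * β k u) = _
      ring
    have e2 : Pool.Agent.D0H50.JL.BoxG.Bm r s M S₀ β γ δ none k = (r - 1) * γ k + s * δ k := rfl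
    have e3 : Pool.Agent.D0H50.JL.BoxG.Bm r s M S₀ β γ δ (some none) k = γ k := rfl
    rw [e1, e2, e3]
    ring
  · apply card_le_one_of_none
    intro k hne
    apply hne
    rw [Fintype.sum_option, Fintype.sum_option]
    have e1 : ∑ u : S₀, Pool.Agent.D0H50.JL.BoxG.Bm r s M S₀ β γ δ
        (some (some u)) k = ∑ u : S₀, wt M u * β k u := rfl
    have e2 : Pool.Agent.D0H50.JL.BoxG.Bm r s M S₀ β γ δ none k = (r - 1) * γ k + s * δ k := rfl
    have e3 : Pool.Agent.D0H50.JL.BoxG.Bm r s M S₀ β γ δ (some none) k = γ k := rfl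
    rw [e1, e2, e3]
    show _ = ∑ u : S₀, wt M u * β k u + r * γ k + s * δ k
    ring
  · rintro p ⟨h1, h2, h3, h4, h5⟩ hl
    rw [Pool.Agent.D0H50.JL.BoxG.gdb_iff hM h1 h2 hS₀ h3, h4, h5]
    subst hl
    exact Iff.rfl

/-- the description of `GdP` -/
theorem locE_P (r s : ZMod 3) (hrs : r ≠ 0 ∨ s ≠ 0) : LocE (r, s) (GdP r s) := by
  intro ι _ _ M S₀ γ δ hM hS₀ hcard β hβ
  refine ⟨Option S₀, inferInstance, Pool.Agent.D0H69.L3K.Box.Am (qG r s) 1 M S₀,
    Pool.Agent.D0H69.L3K.Box.Bm 1 M S₀ β (fun k => r * γ k + s * δ k), ?_, ?_, ?_, ?_, ?_⟩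
  · rw [Fintype.card_option, Fintype.card_coe]
    omega
  · intro u v
    cases u with
    | none => cases v with
      | none => rfl
      | some v => rfl
    | some u => cases v with
      | none => rfl
      | some v =>
        show wt M u * wt M v * cs u v = wt M v * wt M u * cs v u
        rw [cs_symm (hS₀ u u.2) (hS₀ v v.2), mul_comm (wt M u) (wt M v)]
  · intro w hw
    obtain ⟨k, hk⟩ := hβ (fun u => w (some u) * wt M u) (w none * r) (w none * s) (by
      obtain ⟨u, hu⟩ := hw
      cases u with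
      | none =>
        rcases hrs with h | h
        · exact Or.inr (Or.inl (mul_ne_zero hu h))
        · exact Or.inr (Or.inr (mul_ne_zero hu h))
      | some u => exact Or.inl ⟨u, mul_ne_zero hu (wt_ne M u)⟩)
    refine ⟨k, fun h0 => hk ?_⟩
    rw [← h0, Fintype.sum_option]
    have e1 : ∑ u : S₀, w (some u) * Pool.Agent.D0H69.L3K.Box.Bm 1 M S₀ β
        (fun k => r * γ k + s * δ k) (some u) k = ∑ u : S₀, w (some u) * wt M u * β k u := by
      refine Finset.sum_congr rfl fun u _ => ?_
      show w (some u) * (wt M u * β k u) = _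
      ring
    have e2 : Pool.Agent.D0H69.L3K.Box.Bm 1 M S₀ β (fun k => r * γ k + s * δ k) none k =
      1 * (r * γ k + s * δ k) := rfl
    rw [e1, e2]
    ring
  · apply card_le_one_of_none
    intro k hne
    apply hne
    rw [Fintype.sum_option]
    have e1 : ∑ u : S₀, Pool.Agent.D0H69.L3K.Box.Bm 1 M S₀ β
        (fun k => r * γ k + s * δ k) (some u) k = ∑ u : S₀, wt M u * β k u := rfl
    have e2 : Pool.Agent.D0H69.L3K.Box.Bm 1 M S₀ β (fun k => r * γ k + s * δ k) none k =
      1 * (r * γ k + s * δ k) := rfl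
    rw [e1, e2]
    show _ = ∑ u : S₀, wt M u * β k u + r * γ k + s * δ k
    ring
  · rintro p ⟨h1, h2, h3, h4, h5⟩ hl
    have e1 : GdP r s M (S₀ ∪ univ.image p) ↔ GdT (qG r s) 1 M (S₀ ∪ univ.image p) := by
      unfold GdP GdT
      simp only [one_mul]
    have e2 : (fun k => qG r s (p k)) = fun k => r * γ k + s * δ k := by
      funext k
      unfold qG
      rw [← h4, ← h5]
    rw [e1, Pool.Agent.D0H69.L3K.Box.gdb_iff hM h1 h2 hS₀ h3, e2]
    subst hl
    exact Iff.rfl

/-- the condition for `λ^0 ω^0` -/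
def G0 (M S : Finset Ei) : Prop :=
  (NtS M S → GdC (∑ π ∈ S, wt M π * yq π) M S) ∧ (¬ NtS M S → GdW M S)

lemma nts_iff {ι : Type} [Fintype ι] [LinearOrder ι] {M S₀ : Finset Ei} {γ δ : ι → ZMod 3}
    (hM : M ⊆ S₀) (p : ι → Ei) (hp : Tup S₀ γ δ p) : (NtS M (S₀ ∪ univ.image p) ↔
      ∑ u : S₀, wt M u * nq u + ∑ l, γ l = 0) ∧
    ∑ π ∈ S₀ ∪ univ.image p, wt M π * yq π = ∑ u : S₀, wt M u * yq u + ∑ l, δ l := by
  obtain ⟨h1, h2, h3, h4, h5⟩ := hp
  have hw : ∀ k, wt M (p k) = 1 := fun k => wt_one fun h => h3 k (hM h)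
  unfold NtS
  rw [sum_un h1 h3, sum_un h1 h3]
  simp only [hw, one_mul]
  rw [show (∑ l, nq (p l)) = ∑ l, γ l from
    Finset.sum_congr rfl fun l _ => congrFun h4 l, show (∑ l, yq (p l)) = ∑ l, δ l from
    Finset.sum_congr rfl fun l _ => congrFun h5 l]
  exact ⟨Iff.rfl, rfl⟩

theorem locE_0 : LocE (0, 0) G0 := by
  intro ι _ _ M S₀ γ δ hM hS₀ hcard β hβ
  by_cases hneu : ∑ u : S₀, wt M u * nq u + ∑ l, γ l = 0
  · obtain ⟨t, ht⟩ : ∃ t : ZMod 3, t = ∑ u : S₀, wt M u * yq u + ∑ l, δ l := ⟨_, rfl⟩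
    have hG : ∀ p, Tup S₀ γ δ p →
        (G0 M (S₀ ∪ univ.image p) ↔ GdC t M (S₀ ∪ univ.image p)) := by
      intro p hp
      obtain ⟨e1, e2⟩ := nts_iff hM p hp
      have e3 := e1.2 hneu
      unfold G0
      rw [e2, ← ht]
      exact ⟨fun h => h.1 e3, fun h => ⟨fun _ => h, fun h' => absurd e3 h'⟩⟩
    obtain ⟨j0, hj0⟩ := ex_j0 β γ δ hβ hcard
    have hsum : ∀ (w : Option (Option S₀) → ZMod 3) k,
        ∑ u, w u * Pool.Agent.D0H69.L0D.Box.Bm j0 M S₀ β γ u k =
        (∑ u : S₀, w (some (some u)) * wt M u * β k u + (w (some none) - w none) * γ k) +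
          w none * sg j0 k := by
      intro w k
      rw [Fintype.sum_option, Fintype.sum_option]
      have e1 : ∑ u : S₀, w (some (some u)) *
          Pool.Agent.D0H69.L0D.Box.Bm j0 M S₀ β γ (some (some u)) k =
          ∑ u : S₀, w (some (some u)) * wt M u * β k u := by
        refine Finset.sum_congr rfl fun u _ => ?_
        show w (some (some u)) * (wt M u * β k u) = _
        ring
      have e2 : Pool.Agent.D0H69.L0D.Box.Bm j0 M S₀ β γ none k = -γ k + sg j0 k := rfl
      have e3 : Pool.Agent.D0H69.L0D.Box.Bm j0 M S₀ β γ (some none) k = γ k := rfl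
      rw [e1, e2, e3]
      ring
    refine ⟨Option (Option S₀), inferInstance, Pool.Agent.D0H69.L0D.Box.Am t M S₀,
      Pool.Agent.D0H69.L0D.Box.Bm j0 M S₀ β γ, ?_, ?_, ?_, ?_, ?_⟩
    · rw [Fintype.card_option, Fintype.card_option, Fintype.card_coe]
    · intro u v
      rcases u with _ | _ | u <;> rcases v with _ | _ | v
      · rfl
      · rfl
      · rfl
      · rfl
      · rfl
      · rfl
      · rfl
      · rfl
      · show wt M u * wt M v * cs u v = wt M v * wt M u * cs v u
        rw [cs_symm (hS₀ u u.2) (hS₀ v v.2), mul_comm (wt M u) (wt M v)]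
    · intro w hw
      by_cases h0 : w none = 0
      · obtain ⟨k, -, hk⟩ := hj0 (fun u => w (some (some u)) * wt M u)
          (w (some none) - w none) (by
          by_cases h00 : w (some none) = 0
          · obtain ⟨u, hu⟩ := hw
            rcases u with _ | _ | u
            · exact absurd h0 hu
            · exact absurd h00 hu
            · exact Or.inl ⟨u, mul_ne_zero hu (wt_ne M u)⟩
          · refine Or.inr ?_
            rw [h0, sub_zero]
            exact h00)
        refine ⟨k, ?_⟩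
        rw [hsum w k, h0, zero_mul, add_zero]
        rw [h0] at hk
        exact hk
      · by_cases h00 : (∃ u : S₀, w (some (some u)) * wt M u ≠ 0) ∨ w (some none) - w none ≠ 0
        · obtain ⟨k, hkj, hk⟩ := hj0 (fun u => w (some (some u)) * wt M u)
            (w (some none) - w none) h00
          refine ⟨k, ?_⟩
          rw [hsum w k, sg_ne hkj, mul_zero, add_zero]
          exact hk
        · push Not at h00
          refine ⟨j0, ?_⟩
          rw [hsum w j0, sg_self, h00.2, zero_mul, add_zero, mul_one,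
            Finset.sum_eq_zero (fun u _ => by rw [h00.1 u, zero_mul]), zero_add]
          exact h0
    · have hsub : (univ.filter fun k => ∑ u, Pool.Agent.D0H69.L0D.Box.Bm j0 M S₀ β γ u k ≠
          ∑ u : S₀, wt M u * β k u + ((0, 0) : ZMod 3 × ZMod 3).1 * γ k +
            ((0, 0) : ZMod 3 × ZMod 3).2 * δ k) ⊆ {j0} := by
        intro k hk
        rw [mem_filter] at hk
        rw [mem_singleton]
        by_contra hne
        apply hk.2
        have h1 := hsum (fun _ => 1) k
        simp only [one_mul, sub_self, zero_mul, add_zero, sg_ne hne] at h1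
        rw [h1]
        simp
      exact (card_le_card hsub).trans (card_singleton _).le
    · rintro p hp hl
      rw [hG p hp]
      obtain ⟨h1, h2, h3, h4, h5⟩ := hp
      rw [Pool.Agent.D0H50.JL.BoxC.gdc_iff t j0 hM h1 h2 hS₀ h3 (by
        rw [← hneu]
        exact congrArg _ (Finset.sum_congr rfl fun l _ => congrFun h4 l)), h4]
      subst hl
      exact Iff.rfl
  · have hG : ∀ p, Tup S₀ γ δ p →
        (G0 M (S₀ ∪ univ.image p) ↔ GdW M (S₀ ∪ univ.image p)) := by
      intro p hp
      obtain ⟨e1, e2⟩ := nts_iff hM p hp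
      have e3 : ¬ NtS M (S₀ ∪ univ.image p) := fun h => hneu (e1.1 h)
      unfold G0
      exact ⟨fun h => h.2 e3, fun h => ⟨fun h' => absurd h' e3, fun _ => h⟩⟩
    have hιne : Nonempty ι := Fintype.card_pos_iff.1 (by omega)
    obtain ⟨k₀⟩ := hιne
    refine ⟨S₀, inferInstance, fun u v => wt M u * wt M v * cs u v, fun u l => wt M u * β l u,
      ?_, ?_, ?_, ?_, ?_⟩
    · rw [Fintype.card_coe]
      omega
    · intro u v
      show wt M u * wt M v * cs u v = wt M v * wt M u * cs v u
      rw [cs_symm (hS₀ u u.2) (hS₀ v v.2), mul_comm (wt M u) (wt M v)]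
    · intro w hw
      obtain ⟨u, hu⟩ := hw
      obtain ⟨k, hk⟩ := hβ (fun u => w u * wt M u) 0 0 (Or.inl ⟨u, mul_ne_zero hu (wt_ne M u)⟩)
      refine ⟨k, fun h0 => hk ?_⟩
      rw [zero_mul, zero_mul, add_zero, add_zero, ← h0]
      exact Finset.sum_congr rfl fun u _ => mul_assoc _ _ _
    · apply card_le_one_of_none
      intro k hne
      apply hne
      show ∑ u : S₀, wt M u * β k u = ∑ u : S₀, wt M u * β k u + 0 * γ k + 0 * δ k
      ring
    · rintro p hp hl
      rw [hG p hp]
      obtain ⟨h1, h2, h3, h4, h5⟩ := hp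
      rw [gdw_iff hM h1 h2 hS₀ h3 k₀]
      subst hl
      exact Iff.rfl

theorem t_LOCE : S_LOCE := by
  intro a i
  by_cases ha : a = 0
  · subst ha
    rw [neg_zero]
    by_cases hi : i = 0
    · subst hi
      have e : GG 0 0 = G0 := by
        funext M S
        unfold GG G0
        rw [if_pos rfl, if_pos rfl]
      rw [e]
      exact locE_0
    · have e : GG 0 i = GdP i 0 := by
        funext M S
        unfold GG
        rw [if_pos rfl, if_neg hi]
      rw [e]
      exact locE_P i 0 (Or.inl hi)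
  · by_cases ha1 : a = 1
    · subst ha1
      have e : GG 1 i = GdG i (-1) i := by
        funext M S
        unfold GG
        rw [if_neg one_ne_zero, if_pos rfl]
      rw [e]
      exact locE_G i (-1) i (by decide)
    · have key : ∀ c : ZMod 3, c ≠ 0 → c ≠ 1 → -c = 1 := by decide
      have e : GG a i = GdP i 1 := by
        funext M S
        unfold GG
        rw [if_neg ha, if_neg ha1]
      rw [e, key a ha ha1]
      exact locE_P i 1 (Or.inr one_ne_zero)

end Pool.Agent.D0H98.JT
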