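import Pool.Agent.D0H98.JT.Ind

/-! # Few matrices have a relation -/

set_option autoImplicit false
set_option linter.unusedVariables false

open scoped Classical

namespace Pool.Agent.D0H98.JT

open Finset Pool.Agent.D0H69.JT

/-- tuples indexed by `B` with sum in `P j₀` -/
def TT {κ ι : Type} [Fintype ι] (P : κ → Submodule (ZMod 3) (X ι)) (B : Finset κ) (j₀ : κ) :
    Set (B → X ι) := {x | (∀ j : B, x j ∈ P j) ∧ ∑ j, x j ∈ P j₀}

lemma TT_count {κ ι : Type} [Fintype κ] [Fintype ι] [DecidableEq ι] (δ : ℝ)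
    (P : κ → Submodule (ZMod 3) (X ι)) (hδ : 0 ≤ δ) (hP : Hyp δ P) (B : Finset κ) (j₀ : κ)
    (hB : B.Nonempty) (hj : j₀ ∉ B) :
    ((TT P B j₀).ncard : ℝ) ≤ δ * 3 ^ (Fintype.card ι * B.card) := by
  obtain ⟨j₁, hj₁⟩ := hB
  have h := fiber_real (I := B) (fun j : B => (P j : Set (X ι))) (Fintype.card ι) δ hδ
    (fun j => (lag_ncard (hP.lag j)).le) ⟨j₁, hj₁⟩ (TT P B j₀) (fun x hx j => hx.1 j) (by
      intro x
      refine le_trans ?_ (hP.two j₁ j₀ (fun h => hj (h ▸ hj₁)))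
      have h3 : ({y | Function.update x ⟨j₁, hj₁⟩ y ∈ TT P B j₀} : Set (X ι)).ncard ≤
          ((P j₁ ⊓ P j₀ : Submodule (ZMod 3) (X ι)) : Set (X ι)).ncard := by
        apply ncard_le_of_sub
        intro y hy y' hy'
        have e1 := hy.1 ⟨j₁, hj₁⟩
        have e2 := hy'.1 ⟨j₁, hj₁⟩
        rw [Function.update_self] at e1 e2
        refine ⟨(P j₁).sub_mem e1 e2, ?_⟩
        have e3 : y - y' = _ := (sum_update (fun _ (z : X ι) => z) x ⟨j₁, hj₁⟩ y y').symm
        rw [e3]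
        exact (P j₀).sub_mem hy.2 hy'.2
      exact_mod_cast h3)
  rwa [Fintype.card_coe] at h

/-- the matrices with the tuple `B, j₀` -/
noncomputable def Sb {κ ι : Type} [Fintype ι] [DecidableEq ι] (P : κ → Submodule (ZMod 3) (X ι))
    (B : Finset κ) (j₀ : κ) : Finset (Matrix ι ι (ZMod 3)) :=
  (Sy ι).filter fun S => ∃ x : B → X ι, x ∈ TT P B j₀ ∧
    LinearIndependent (ZMod 3) (fun i => (x i).1) ∧ ∀ i, Gr S (x i)

lemma Sb_count (hL1 : S_L1) {κ ι : Type} [Fintype κ] [Fintype ι] [DecidableEq ι] (δ : ℝ)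
    (P : κ → Submodule (ZMod 3) (X ι)) (hδ : 0 ≤ δ) (hP : Hyp δ P) (B : Finset κ) (j₀ : κ)
    (hB : B.Nonempty) (hj : j₀ ∉ B) :
    ((Sb P B j₀).card : ℝ) ≤ 3 ^ (B.card.choose 2) * δ * (Sy ι).card := by
  set T : Finset (B → X ι) := univ.filter fun x => x ∈ TT P B j₀ ∧
    LinearIndependent (ZMod 3) (fun i => (x i).1) with hT
  have h1 : Sb P B j₀ ⊆ T.biUnion fun x => (Sy ι).filter fun S => ∀ i, Gr S (x i) := by
    intro S hS
    rw [Sb, mem_filter] at hS
    obtain ⟨hS, x, hx, hli, hg⟩ := hS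
    rw [mem_biUnion]
    exact ⟨x, by rw [hT, mem_filter]; exact ⟨mem_univ _, hx, hli⟩, mem_filter.2 ⟨hS, hg⟩⟩
  have h2 : ∀ x ∈ T, (((Sy ι).filter fun S => ∀ i, Gr S (x i)).card : ℝ) ≤
      (Sy ι).card * 3 ^ (B.card.choose 2) / 3 ^ (Fintype.card ι * B.card) := by
    intro x hx
    rw [hT, mem_filter] at hx
    have h3 := hL1 ι B x hx.2.2
    rw [Fintype.card_coe] at h3
    rw [le_div_iff₀ (by positivity)]
    by_cases hc : ∀ i i', (x i).1 ⬝ᵥ (x i').2 = (x i').1 ⬝ᵥ (x i).2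
    · have h4 := h3.1 hc
      exact_mod_cast h4.le
    · have h4 := h3.2 hc
      rw [h4]
      simp only [CharP.cast_eq_zero, zero_mul]
      positivity
  have h3 : (T.card : ℝ) ≤ δ * 3 ^ (Fintype.card ι * B.card) := by
    refine le_trans ?_ (TT_count δ P hδ hP B j₀ hB hj)
    have : T.card ≤ (TT P B j₀).ncard := by
      rw [← Set.ncard_coe_finset]
      refine Set.ncard_le_ncard ?_ (Set.toFinite _)
      intro x hx
      rw [hT, mem_coe, mem_filter] at hx
      exact hx.2.1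
    exact_mod_cast this
  have h4 : ((Sb P B j₀).card : ℝ) ≤
      ∑ x ∈ T, (((Sy ι).filter fun S => ∀ i, Gr S (x i)).card : ℝ) := by
    have := (card_le_card h1).trans card_biUnion_le
    exact_mod_cast this
  calc ((Sb P B j₀).card : ℝ) ≤ _ := h4
    _ ≤ ∑ x ∈ T, ((Sy ι).card * 3 ^ (B.card.choose 2) / 3 ^ (Fintype.card ι * B.card) : ℝ) :=
        Finset.sum_le_sum h2
    _ = T.card * ((Sy ι).card * 3 ^ (B.card.choose 2) / 3 ^ (Fintype.card ι * B.card) : ℝ) := by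
        rw [sum_const, nsmul_eq_mul]
    _ ≤ (δ * 3 ^ (Fintype.card ι * B.card)) *
        ((Sy ι).card * 3 ^ (B.card.choose 2) / 3 ^ (Fintype.card ι * B.card) : ℝ) :=
        mul_le_mul_of_nonneg_right h3 (by positivity)
    _ = 3 ^ (B.card.choose 2) * δ * (Sy ι).card := by field_simp

/-- a relation gives a tuple -/
lemma exists_tuple {κ ι : Type} [Fintype κ] [Fintype ι] [DecidableEq ι]
    (P : κ → Submodule (ZMod 3) (X ι)) (S : Matrix ι ι (ZMod 3)) (h : Rel P S) :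
    ∃ (B : Finset κ) (j₀ : κ), B.Nonempty ∧ j₀ ∉ B ∧ ∃ x : B → X ι, x ∈ TT P B j₀ ∧
      LinearIndependent (ZMod 3) (fun i => (x i).1) ∧ ∀ i, Gr S (x i) := by
  classical
  -- a relation with minimal support
  have hex : ∃ k : ℕ, ∃ x : κ → X ι, ((∀ j, x j ∈ P j ∧ Gr S (x j)) ∧ x ≠ 0 ∧ ∑ j, x j = 0) ∧
      (univ.filter fun j => x j ≠ 0).card = k := by
    obtain ⟨x, hx⟩ := h
    exact ⟨_, x, hx, rfl⟩
  obtain ⟨x, ⟨hx1, hx2, hx3⟩, hxc⟩ := Nat.find_spec hex
  have hmin := fun m => @Nat.find_min _ _ hex m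
  rw [← hxc] at hmin
  set A := univ.filter fun j => x j ≠ 0 with hA
  obtain ⟨j₀, hj₀⟩ := Function.ne_iff.1 hx2
  have hj₀A : j₀ ∈ A := by
    rw [hA, mem_filter]
    exact ⟨mem_univ _, hj₀⟩
  have hsumA : ∑ j ∈ A, x j = 0 := by
    rw [← hx3, hA, Finset.sum_filter_ne_zero]
  have hsumB : x j₀ + ∑ j ∈ A.erase j₀, x j = 0 := by
    rw [Finset.add_sum_erase _ _ hj₀A, hsumA]
  refine ⟨A.erase j₀, j₀, ?_, notMem_erase _ _, fun j => x j, ⟨fun j => (hx1 j).1, ?_⟩, ?_,
    fun j => (hx1 j).2⟩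
  · rw [nonempty_iff_ne_empty]
    intro he
    rw [he, sum_empty, add_zero] at hsumB
    exact hj₀ hsumB
  · have h1 : ∑ j : (A.erase j₀ : Finset κ), x j = ∑ j ∈ A.erase j₀, x j :=
      Finset.sum_coe_sort (A.erase j₀) x
    rw [h1, eq_neg_of_add_eq_zero_right hsumB]
    exact (P j₀).neg_mem (hx1 j₀).1
  · rw [Fintype.linearIndependent_iff]
    intro a ha
    set y : κ → X ι := fun j => if h : j ∈ A.erase j₀ then a ⟨j, h⟩ • x j else 0 with hy
    have hyB : ∀ j : (A.erase j₀ : Finset κ), y j = a j • x j := by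
      intro j
      simp only [hy]
      rw [dif_pos j.2]
    have hy0 : ∀ j, j ∉ A.erase j₀ → y j = 0 := by
      intro j hj
      simp only [hy]
      rw [dif_neg hj]
    have hyP : ∀ j, y j ∈ P j ∧ Gr S (y j) := by
      intro j
      by_cases hj : j ∈ A.erase j₀
      · rw [hyB ⟨j, hj⟩]
        refine ⟨(P j).smul_mem _ (hx1 j).1, ?_⟩
        have := (hx1 j).2
        unfold Gr at this ⊢
        rw [Prod.smul_fst, Prod.smul_snd, Matrix.mulVec_smul, this]
      · rw [hy0 j hj]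
        refine ⟨(P j).zero_mem, ?_⟩
        unfold Gr
        rw [Prod.fst_zero, Prod.snd_zero, Matrix.mulVec_zero]
    have hs1 : ∑ j, y j = ∑ j : (A.erase j₀ : Finset κ), a j • x j := by
      have e1 : ∑ j, y j = ∑ j ∈ A.erase j₀, y j :=
        (Finset.sum_subset (subset_univ _) fun j _ hj => hy0 j hj).symm
      rw [e1, ← Finset.sum_coe_sort]
      exact Finset.sum_congr rfl fun j _ => hyB j
    have hs2 : ∑ j, y j = 0 := by
      have e1 : (∑ j, y j).1 = 0 := by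
        rw [hs1, Prod.fst_sum]
        exact ha
      have e2 : (∑ j, y j).2 = S.mulVec (∑ j, y j).1 := by
        rw [Prod.snd_sum, Prod.fst_sum]
        have : S.mulVec (∑ j, (y j).1) = ∑ j, S.mulVec (y j).1 := by
          exact map_sum (Matrix.mulVecLin S) _ _
        rw [this]
        exact Finset.sum_congr rfl fun j _ => (hyP j).2.symm
      rw [e1, Matrix.mulVec_zero] at e2
      exact Prod.ext e1 e2
    have hyz : y = 0 := by
      by_contra hne
      have hlt : (univ.filter fun j => y j ≠ 0).card < A.card := by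
        apply card_lt_card
        rw [Finset.ssubset_iff_of_subset]
        · refine ⟨j₀, hj₀A, ?_⟩
          rw [mem_filter]
          rintro ⟨_, h2⟩
          exact h2 (hy0 j₀ (notMem_erase _ _))
        · intro j hj
          rw [mem_filter] at hj
          by_contra hjA
          exact hj.2 (hy0 j fun h => hjA (mem_of_mem_erase h))
      exact hmin _ hlt ⟨y, ⟨hyP, hne, hs2⟩, rfl⟩
    intro j
    have h1 := hyB j
    rw [hyz, Pi.zero_apply] at h1
    have h2 : x j ≠ 0 := by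
      have := mem_of_mem_erase j.2
      exact (mem_filter.1 this).2
    exact (smul_eq_zero.1 h1.symm).resolve_right h2

theorem t_REL : S_REL := by
  intro hL1 κ _
  refine ⟨(2 ^ Fintype.card κ * Fintype.card κ : ℕ) * 3 ^ ((Fintype.card κ).choose 2),
    by positivity, ?_⟩
  intro ι _ _ δ P hδ hP
  set m := Fintype.card κ with hm
  have hSy : 0 < ((Sy ι).card : ℝ) := by
    have : (0 : Matrix ι ι (ZMod 3)) ∈ Sy ι := by
      rw [Sy, mem_filter]
      exact ⟨mem_univ _, Matrix.isSymm_zero⟩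
    exact_mod_cast card_pos.2 ⟨_, this⟩
  set Q : Finset (Finset κ × κ) := univ.filter fun p => p.1.Nonempty ∧ p.2 ∉ p.1 with hQ
  have h1 : ((Sy ι).filter fun S => Rel P S) ⊆ Q.biUnion fun p => Sb P p.1 p.2 := by
    intro S hS
    rw [mem_filter] at hS
    obtain ⟨B, j₀, hB, hj, x, hx⟩ := exists_tuple P S hS.2
    rw [mem_biUnion]
    refine ⟨(B, j₀), ?_, ?_⟩
    · rw [hQ, mem_filter]; exact ⟨mem_univ _, hB, hj⟩
    · rw [Sb, mem_filter]; exact ⟨hS.1, x, hx⟩
  have h2 : ∀ p ∈ Q, ((Sb P p.1 p.2).card : ℝ) ≤ 3 ^ (m.choose 2) * δ * (Sy ι).card := by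
    intro p hp
    rw [hQ, mem_filter] at hp
    refine (Sb_count hL1 δ P hδ hP p.1 p.2 hp.2.1 hp.2.2).trans ?_
    have : (3 : ℝ) ^ (p.1.card.choose 2) ≤ 3 ^ (m.choose 2) :=
      pow_le_pow_right₀ (by norm_num) (Nat.choose_le_choose 2 (card_le_univ _))
    gcongr
  have h3 : (Q.card : ℝ) ≤ (2 ^ m * m : ℕ) := by
    have : Q.card ≤ 2 ^ m * m := by
      refine (card_filter_le _ _).trans (le_of_eq ?_)
      rw [card_univ, Fintype.card_prod, Fintype.card_finset]
    exact_mod_cast this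
  rw [div_le_iff₀ hSy]
  have h4 : (((Sy ι).filter fun S => Rel P S).card : ℝ) ≤
      ∑ p ∈ Q, ((Sb P p.1 p.2).card : ℝ) := by
    have := (card_le_card h1).trans card_biUnion_le
    exact_mod_cast this
  calc _ ≤ _ := h4
    _ ≤ ∑ p ∈ Q, (3 ^ (m.choose 2) * δ * (Sy ι).card : ℝ) := Finset.sum_le_sum h2
    _ = Q.card * (3 ^ (m.choose 2) * δ * (Sy ι).card : ℝ) := by rw [sum_const, nsmul_eq_mul]
    _ ≤ (2 ^ m * m : ℕ) * (3 ^ (m.choose 2) * δ * (Sy ι).card : ℝ) :=
        mul_le_mul_of_nonneg_right h3 (by positivity)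
    _ = _ := by ring

end Pool.Agent.D0H98.JT
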