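import Pool.Agent.D0H69.JT.StmA

/-! # Twisting the description -/

set_option autoImplicit false
set_option linter.unusedVariables false

open scoped Classical

namespace Pool.Agent.D0H98.JT

open Finset
open Pool.Agent.Y692.QS (Ei)
open Pool.Agent.Y715.T.Rec (cs)
open Pool.Agent.Y715.T.RecG (Pq)
open Pool.Agent.Y703.XK (prs GdA)
open Pool.Agent.R419.KF (wt wt_one wt_ne)
open Pool.Agent.Y688.XK (lb)
open Pool.Agent.D0H10.L9D.Box (LNB)
open Pool.Agent.D0H50.JL (Tup)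
open Pool.Agent.D0H69.JT

lemma sum_ext {T S : Finset Ei} (h : T ⊆ S) (w : T → ZMod 3) (w' β : S → ZMod 3)
    (h1 : ∀ u : T, w' ⟨u, h u.2⟩ = w u) (h0 : ∀ u : S, (u : Ei) ∉ T → w' u = 0) :
    ∑ u : S, w' u * β u = ∑ u : T, w u * β ⟨u, h u.2⟩ := by
  set F : Ei → ZMod 3 := fun q => if hq : q ∈ S then w' ⟨q, hq⟩ * β ⟨q, hq⟩ else 0 with hF
  have e1 : ∑ u : S, w' u * β u = ∑ q ∈ S, F q := by
    rw [← Finset.sum_coe_sort S F]
    refine Finset.sum_congr rfl fun u _ => ?_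
    simp only [hF]
    rw [dif_pos u.2]
  have e2 : ∑ u : T, w u * β ⟨u, h u.2⟩ = ∑ q ∈ T, F q := by
    rw [← Finset.sum_coe_sort T F]
    refine Finset.sum_congr rfl fun u _ => ?_
    simp only [hF]
    rw [dif_pos (h u.2), h1]
  rw [e1, e2]
  refine (Finset.sum_subset h fun q hq hqT => ?_).symm
  simp only [hF]
  rw [dif_pos hq, h0 ⟨q, hq⟩ hqT, zero_mul]

lemma two_ne : (2 : ZMod 3) ≠ 0 := by decide

lemma wt_exq (Q : Finset Ei) (f : Ei → ZMod 3) (M S₀ : Finset Ei) (q : Ei)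
    (hq : q ∈ Sf Q f M S₀) : wt (Mf Q f M S₀) q = exq Q f M S₀ q := by
  rw [Sf, mem_filter] at hq
  have key : ∀ c : ZMod 3, c ≠ 0 → c ≠ 2 → c = 1 := by decide
  by_cases h2 : exq Q f M S₀ q = 2
  · rw [wt, if_pos, h2]
    rw [Mf, mem_filter]
    exact ⟨hq.1, h2⟩
  · rw [wt, if_neg, key _ hq.2 h2]
    rw [Mf, mem_filter]
    exact fun h => h2 h.2

lemma exq_old {ι : Type} [Fintype ι] (Q : Finset Ei) (f : Ei → ZMod 3) (M S₀ : Finset Ei)
    (p : ι → Ei) (hp : ∀ k, p k ∉ S₀ ∪ Q) (q : Ei) (hq : q ∈ S₀ ∪ Q) :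
    exq Q f M (S₀ ∪ univ.image p) q = exq Q f M S₀ q := by
  have h1 : q ∉ univ.image p := by
    rw [mem_image]
    rintro ⟨k, -, rfl⟩
    exact hp k hq
  have h2 : q ∈ S₀ ∪ univ.image p ↔ q ∈ S₀ := by
    rw [mem_union]
    exact ⟨fun h => h.resolve_right h1, Or.inl⟩
  unfold exq
  simp only [h2]

lemma exq_new {ι : Type} [Fintype ι] (Q : Finset Ei) (f : Ei → ZMod 3) (M S₀ : Finset Ei)
    (hM : M ⊆ S₀) (p : ι → Ei) (hp : ∀ k, p k ∉ S₀ ∪ Q) (k : ι) :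
    exq Q f M (S₀ ∪ univ.image p) (p k) = 1 := by
  have h1 := hp k
  rw [mem_union, not_or] at h1
  unfold exq
  rw [if_pos (mem_union_right _ (mem_image_of_mem _ (mem_univ _))), if_neg h1.2, add_zero]
  exact wt_one fun h => h1.1 (hM h)

lemma Sf_union {ι : Type} [Fintype ι] (Q : Finset Ei) (f : Ei → ZMod 3) (M S₀ : Finset Ei)
    (hM : M ⊆ S₀) (p : ι → Ei) (hp : ∀ k, p k ∉ S₀ ∪ Q) :
    Sf Q f M (S₀ ∪ univ.image p) = Sf Q f M S₀ ∪ univ.image p := by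
  ext q
  rw [mem_union, Sf, Sf, mem_filter, mem_filter]
  constructor
  · rintro ⟨h1, h2⟩
    by_cases hq : q ∈ S₀ ∪ Q
    · rw [exq_old Q f M S₀ p hp q hq] at h2
      exact Or.inl ⟨hq, h2⟩
    · right
      rw [mem_union, mem_union] at h1
      rw [mem_union, not_or] at hq
      exact (h1.resolve_right hq.2).resolve_left hq.1
  · rintro (⟨h1, h2⟩ | h)
    · rw [exq_old Q f M S₀ p hp q h1]
      refine ⟨?_, h2⟩
      rw [mem_union] at h1
      rw [mem_union, mem_union]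
      exact h1.imp Or.inl id
    · rw [mem_image] at h
      obtain ⟨k, -, rfl⟩ := h
      rw [exq_new Q f M S₀ hM p hp k]
      exact ⟨mem_union_left _ (mem_union_right _ (mem_image_of_mem _ (mem_univ _))), one_ne_zero⟩

lemma Mf_union {ι : Type} [Fintype ι] (Q : Finset Ei) (f : Ei → ZMod 3) (M S₀ : Finset Ei)
    (hM : M ⊆ S₀) (p : ι → Ei) (hp : ∀ k, p k ∉ S₀ ∪ Q) :
    Mf Q f M (S₀ ∪ univ.image p) = Mf Q f M S₀ := by
  ext q
  rw [Mf, Mf, mem_filter, mem_filter]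
  constructor
  · rintro ⟨h1, h2⟩
    by_cases hq : q ∈ S₀ ∪ Q
    · rw [exq_old Q f M S₀ p hp q hq] at h2
      exact ⟨hq, h2⟩
    · exfalso
      rw [mem_union, mem_union] at h1
      rw [mem_union, not_or] at hq
      have h3 := (h1.resolve_right hq.2).resolve_left hq.1
      rw [mem_image] at h3
      obtain ⟨k, -, rfl⟩ := h3
      rw [exq_new Q f M S₀ hM p hp k] at h2
      exact absurd h2 (by decide)
  · rintro ⟨h1, h2⟩
    rw [exq_old Q f M S₀ p hp q h1]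
    refine ⟨?_, h2⟩
    rw [mem_union] at h1
    rw [mem_union, mem_union]
    exact h1.imp Or.inl id

theorem t_TWI : S_TWI := by
  intro Q f x G hG ι _ _ M S₀ γ δ hM hPq hcard β hβ
  set T := Sf Q f M S₀ with hT
  have hTS : T ⊆ S₀ ∪ Q := filter_subset _ _
  have hMT : Mf Q f M S₀ ⊆ T := by
    intro q hq
    rw [Mf, mem_filter] at hq
    rw [hT, Sf, mem_filter]
    exact ⟨hq.1, by rw [hq.2]; exact two_ne⟩
  have hTc : T.card ≤ (S₀ ∪ Q).card := card_le_card hTS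
  obtain ⟨U, iU, A, B, h1, h2, h3, h4, h5⟩ := hG ι (Mf Q f M S₀) T γ δ hMT
    (fun u hu => hPq u (hTS hu)) (by omega) (fun k u => β k ⟨u, hTS u.2⟩) (by
      intro w t s hw
      obtain ⟨i, hi⟩ := hβ (fun u => if h : (u : Ei) ∈ T then w ⟨u, h⟩ else 0) t s (by
        rcases hw with ⟨u, hu⟩ | hw
        · left
          refine ⟨⟨u, hTS u.2⟩, ?_⟩
          show (if h : (u : Ei) ∈ T then w ⟨u, h⟩ else 0) ≠ 0
          rw [dif_pos u.2]
          exact hu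
        · exact Or.inr hw)
      refine ⟨i, ?_⟩
      rw [sum_ext hTS w (fun u => if h : (u : Ei) ∈ T then w ⟨u, h⟩ else 0) (β i)
        (fun u => dif_pos u.2) (fun u hu => dif_neg hu)] at hi
      exact hi)
  refine ⟨U, iU, A, B, by omega, h2, h3, ?_, ?_⟩
  · have e : ∀ k, ∑ u : (S₀ ∪ Q : Finset Ei), ((if (u : Ei) ∈ S₀ then wt M u else 0) +
        (if (u : Ei) ∈ Q then f u else 0)) * β k u =
        ∑ u : T, wt (Mf Q f M S₀) u * β k ⟨u, hTS u.2⟩ := by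
      intro k
      refine sum_ext hTS (fun u => wt (Mf Q f M S₀) u)
        (fun u : (S₀ ∪ Q : Finset Ei) => exq Q f M S₀ u) (β k)
        (fun u => (wt_exq Q f M S₀ u u.2).symm) (fun u hu => ?_)
      by_contra hne
      exact hu (by rw [hT, Sf, mem_filter]; exact ⟨u.2, hne⟩)
    simp only [e]
    exact h4
  · rintro p ⟨p1, p2, p3, p4, p5⟩ hl
    show G (Mf Q f M (S₀ ∪ univ.image p)) (Sf Q f M (S₀ ∪ univ.image p)) ↔ _
    rw [Sf_union Q f M S₀ hM p p3, Mf_union Q f M S₀ hM p p3]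
    refine h5 p ⟨p1, p2, fun k h => p3 k (hTS h), p4, p5⟩ ?_
    subst hl
    rfl

end Pool.Agent.D0H98.JT
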